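import Pool.Agent.Y728.AK.QPts
import Pool.Agent.R365.QP.Ht
import Pool.Agent.R365.SH.All

/-!
# The points of large height: the saving depends only on the field and on `q`

`line_big_u` is `Pool.Agent.Y728.AK.line_big` with the quantifiers in another order.
-/

set_option autoImplicit false

namespace Pool.Agent.V5helper59.SO

open Finset NumberField IsDedekindDomain Pool.Agent.H691R3 Pool.Agent.TH876.Loc
open Pool.Agent.TH876.KR (form counting bad_finite good_index tt tri Pt_tt tri_ne tt_inj cc_ne cc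
  recover0 recover1)
open Pool.Agent.Y728 Pool.Agent.Y728.AK
open Pool.Agent.R365.SH (pv)

variable {K : Type} [Field K] [NumberField K]

/-- the number of the points of large height -/
theorem line_big_u (K : Type) [Field K] [NumberField K] (q : ℕ) (hq : 3 ≤ q)
    (ε : ℝ) (hε : 0 < ε) :
    ∃ ν : ℝ, 0 < ν ∧ ν ≤ 1 / q ∧ ∀ (S : Set (HeightOneSpectrum (𝓞 K))), S.Finite →
      ∀ a : Fin q → Fin 2 → K, (∀ i j, i ≠ j → form (a i) (a j) ≠ 0) →
      ∃ C : ℝ, 0 < C ∧ ∀ X : ℝ, 1 ≤ X → (BigQ S a ε X).Finite ∧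
      ((BigQ S a ε X).ncard : ℝ) ≤ C * X ^ (2 / (q : ℝ) - ν) := by
  classical
  have hq0 : (3 : ℝ) ≤ q := by exact_mod_cast hq
  have hqp : (0 : ℝ) < q := by linarith
  obtain ⟨ν1, hν1, C1, hC1, hAA⟩ := almost_allK K (q * ε / 6) (by positivity)
  obtain ⟨ν, hν⟩ : ∃ ν, ν = min (3 * ν1 / q) (1 / q) := ⟨_, rfl⟩
  have hν0 : 0 < ν := by rw [hν]; exact lt_min (by positivity) (by positivity)
  have hνa : ν ≤ 3 * ν1 / q := by rw [hν]; exact min_le_left _ _
  have hνb : ν ≤ 1 / q := by rw [hν]; exact min_le_right _ _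
  have hν2 : 0 ≤ 2 / (q : ℝ) - ν := by
    have : 1 / (q : ℝ) ≤ 2 / q := div_le_div_of_nonneg_right (by norm_num) hqp.le
    linarith
  refine ⟨ν, hν0, hνb, fun S hS a ha => ?_⟩
  obtain ⟨T, hT⟩ := bad_finite hq S hS ha
  obtain ⟨C2, hC2⟩ := line_final K S hS q hq a ha 1 one_pos
  have hcs : ∀ s : Fin q, ∃ c : ℝ, 0 ≤ c ∧ ∀ x : Fin 2 → K, (∀ i, form (tri a s i) x ≠ 0) →
      Height.logHeight x ≤ c + hgt (tt (tri a s) x) := fun s => logHeight_le_tt (tri_ne hq ha s)
  choose cs hcs0 hcs1 using hcs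
  obtain ⟨c, hc⟩ : ∃ c, c = ∑ s, cs s := ⟨_, rfl⟩
  have hcc : ∀ s, cs s ≤ c := fun s => by
    rw [hc]
    exact Finset.single_le_sum (f := cs) (fun i _ => hcs0 i) (Finset.mem_univ s)
  have hc0 : 0 ≤ c := by
    rw [hc]
    exact Finset.sum_nonneg fun i _ => hcs0 i
  obtain ⟨t, ht⟩ : ∃ t, t = nn T := ⟨_, rfl⟩
  have ht1 : 1 ≤ t := by rw [ht]; exact one_le_nn T
  have ht0 : 0 < t := by linarith
  have hlt : 0 ≤ Real.log t := Real.log_nonneg ht1
  obtain ⟨Λ, hΛ⟩ : ∃ Λ, Λ = (c + (1 / 3 + q * ε / 6) * Real.log t) * (2 / ε) := ⟨_, rfl⟩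
  have hΛ0 : 0 ≤ Λ := by rw [hΛ]; positivity
  refine ⟨(|C2| + 1) * Real.exp Λ ^ (2 / (q : ℝ) + 1) + q * (C1 * t ^ |2 / 3 - ν1|),
    by positivity, fun X hX => ?_⟩
  have hX0 : 0 < X := by linarith
  have hXp : ∀ b : ℝ, 0 < X ^ b := fun b => Real.rpow_pos_of_pos hX0 b
  obtain ⟨hfin, hcardP⟩ := hC2 X hX
  have hfinB : (BigQ S a ε X).Finite := hfin.subset (BigQ_sub S a ε X)
  have h1X : 1 ≤ X ^ (2 / (q : ℝ) - ν) := Real.one_le_rpow hX hν2
  refine ⟨hfinB, ?_⟩
  rcases le_or_gt (Real.log X) Λ with hsm | hbig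
  · have e1 : X ≤ Real.exp Λ := by rwa [← Real.log_le_iff_le_exp hX0]
    have e2 : ((BigQ S a ε X).ncard : ℝ) ≤ ((PtsQ S a X).ncard : ℝ) := by
      exact_mod_cast Set.ncard_le_ncard (BigQ_sub S a ε X) hfin
    have e3 : X ^ (2 / (q : ℝ) + 1) ≤ Real.exp Λ ^ (2 / (q : ℝ) + 1) :=
      Real.rpow_le_rpow hX0.le e1 (by positivity)
    have e4 : C2 * X ^ (2 / (q : ℝ) + 1) ≤ (|C2| + 1) * Real.exp Λ ^ (2 / (q : ℝ) + 1) := by
      refine mul_le_mul ?_ e3 (hXp _).le (by positivity)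
      linarith [le_abs_self C2]
    have e5 : 0 < q * (C1 * t ^ |2 / 3 - ν1|) := by positivity
    calc ((BigQ S a ε X).ncard : ℝ) ≤ (|C2| + 1) * Real.exp Λ ^ (2 / (q : ℝ) + 1) :=
          e2.trans (hcardP.trans e4)
      _ ≤ ((|C2| + 1) * Real.exp Λ ^ (2 / (q : ℝ) + 1) + q * (C1 * t ^ |2 / 3 - ν1|)) * 1 := by
          linarith
      _ ≤ _ := mul_le_mul_of_nonneg_left h1X (by positivity)
  · -- large `X`
    obtain ⟨X', hX'⟩ : ∃ X' : ℝ, X' = t * X ^ (3 / (q : ℝ)) := ⟨_, rfl⟩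
    have hXq : 1 ≤ X ^ (3 / (q : ℝ)) := Real.one_le_rpow hX (by positivity)
    have hX'1 : 1 ≤ X' := by
      rw [hX']
      nlinarith
    have hlogX' : Real.log X' = Real.log t + 3 / q * Real.log X := by
      rw [hX', Real.log_mul ht0.ne' (hXp _).ne', Real.log_rpow hX0]
    -- choose representatives
    have hex : ∀ p : Projectivization K (Fin 2 → K), ∃ (x : Fin 2 → K) (s : Fin q),
        p ∈ BigQ S a ε X → (∃ hx : x ≠ 0, p = Projectivization.mk K x hx) ∧
          (∀ i, form (a i) x ≠ 0) ∧ nn (sp (tt (tri a s) x)) ≤ X' ∧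
          (1 / 3 + q * ε / 6) * Real.log X' ≤ hgt (tt (tri a s) x) := by
      intro p
      by_cases hp : p ∈ BigQ S a ε X
      · obtain ⟨x, hx0, e, hx, h1, h2⟩ := hp
        obtain ⟨s, hs⟩ := good_index hq S ha T hT hx0 hx hX h1
        rw [← ht, ← hX'] at hs
        refine ⟨x, s, fun _ => ⟨⟨hx0, e⟩, hx, hs, ?_⟩⟩
        have h3 := hcs1 s x (fun i => hx _)
        have h4 := hcc s
        have h5 : ε / 2 * Λ = c + (1 / 3 + q * ε / 6) * Real.log t := by
          rw [hΛ]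
          field_simp
        have h6 : ε / 2 * Λ ≤ ε / 2 * Real.log X := mul_le_mul_of_nonneg_left hbig.le (by positivity)
        have h7 : (1 / 3 + q * ε / 6) * Real.log X' =
            (1 / 3 + q * ε / 6) * Real.log t + (1 / q + ε / 2) * Real.log X := by
          rw [hlogX']
          field_simp
          ring
        rw [h7]
        have h8 : (1 / (q : ℝ) + ε) * Real.log X = (1 / q + ε / 2) * Real.log X +
            ε / 2 * Real.log X := by ring
        rw [h8] at h2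
        linarith
      · exact ⟨0, ⟨0, by omega⟩, fun h => absurd h hp⟩
    choose f g hfg using hex
    obtain ⟨B, hB⟩ : ∃ B : ℝ, B = C1 * X' ^ (2 / 3 - ν1) := ⟨_, rfl⟩
    have hB0 : 0 ≤ B := by
      rw [hB]
      have : 0 < X' := by linarith
      positivity
    have hbound : ∀ G : Finset (Projectivization K (Fin 2 → K)), (G : Set _) ⊆ BigQ S a ε X →
        (G.card : ℝ) ≤ q * B := by
      intro G hG
      have h1 : ∀ s : Fin q, ((G.filter fun p => g p = s).card : ℝ) ≤ B := by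
        intro s
        have hinj : Set.InjOn (fun p => tt (tri a s) (f p)) (G.filter fun p => g p = s) := by
          intro p hp r hr hpr
          have hp' := Finset.mem_filter.1 (Finset.mem_coe.1 hp)
          have hr' := Finset.mem_filter.1 (Finset.mem_coe.1 hr)
          obtain ⟨⟨hp0, ep⟩, hpx, _⟩ := hfg p (hG hp'.1)
          obtain ⟨⟨hr0, er⟩, hrx, _⟩ := hfg r (hG hr'.1)
          obtain ⟨k, hk⟩ := tt_inj (tri_ne hq ha s) (x := f p) (y := f r) (fun i => hpx _)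
            (fun i => hrx _) hpr
          rw [ep, er, Projectivization.mk_eq_mk_iff']
          exact ⟨k, hk⟩
        rw [← Finset.card_image_of_injOn hinj, hB]
        refine hAA X' hX'1 _ ?_
        intro z hz
        obtain ⟨p, hp, rfl⟩ := Finset.mem_image.1 hz
        have hp' := Finset.mem_filter.1 hp
        obtain ⟨_, hpx, h2, h3⟩ := hfg p (hG hp'.1)
        rw [hp'.2] at h2 h3
        exact ⟨Pt_tt (tri_ne hq ha s) fun i => hpx _, h2, h3⟩
      have h2 : G.card = ∑ s : Fin q, (G.filter fun p => g p = s).card :=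
        Finset.card_eq_sum_card_fiberwise fun p _ => Finset.mem_univ (g p)
      rw [h2]
      push_cast
      calc ∑ s : Fin q, ((G.filter fun p => g p = s).card : ℝ) ≤ ∑ _s : Fin q, B :=
            Finset.sum_le_sum fun s _ => h1 s
        _ = q * B := by rw [Finset.sum_const, Finset.card_univ, Fintype.card_fin, nsmul_eq_mul]
    have h2 : X' ^ (2 / 3 - ν1) ≤ t ^ |2 / 3 - ν1| * X ^ (2 / (q : ℝ) - ν) := by
      rw [hX', Real.mul_rpow ht0.le (hXp _).le, ← Real.rpow_mul hX0.le]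
      refine mul_le_mul (Real.rpow_le_rpow_of_exponent_le ht1 (le_abs_self _)) ?_ (hXp _).le
        (by positivity)
      refine Real.rpow_le_rpow_of_exponent_le hX ?_
      have h3 : 3 / (q : ℝ) * (2 / 3 - ν1) = 2 / q - 3 * ν1 / q := by ring
      rw [h3]
      linarith
    have h3 : q * B ≤ q * (C1 * t ^ |2 / 3 - ν1|) * X ^ (2 / (q : ℝ) - ν) := by
      rw [hB]
      have := mul_le_mul_of_nonneg_left h2 (by positivity : 0 ≤ (q : ℝ) * C1)
      linarith
    rw [Set.ncard_eq_toFinset_card _ hfinB]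
    refine (hbound hfinB.toFinset (by rw [Set.Finite.coe_toFinset])).trans (h3.trans ?_)
    refine mul_le_mul_of_nonneg_right ?_ (hXp _).le
    have : 0 < (|C2| + 1) * Real.exp Λ ^ (2 / (q : ℝ) + 1) := by positivity
    linarith

/-- the same for the elements of the field -/
theorem big_tail (K : Type) [Field K] [NumberField K] (q : ℕ) (hq : 3 ≤ q) (ε : ℝ) (hε : 0 < ε) :
    ∃ ν : ℝ, 0 < ν ∧ ν ≤ 1 / q ∧ ∀ (S : Set (HeightOneSpectrum (𝓞 K))), S.Finite →
      ∀ α : Fin q → K × K, (∀ l, α l ≠ 0) → (∀ i j, i ≠ j → wg (α i) (α j) ≠ 0) →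
      ∃ C : ℝ, 0 < C ∧ ∀ Y : ℝ, 0 ≤ Y → ∀ F : Finset K,
        (∀ x ∈ F, Off α x ∧ NTc S α x ≤ Y ∧ (1 / q + ε) * Y ≤ hr (aff x)) →
        (F.card : ℝ) ≤ C * Real.exp ((2 / (q : ℝ) - ν) * Y) := by
  obtain ⟨ν, hν0, hν1, h⟩ := line_big_u K q hq ε hε
  refine ⟨ν, hν0, hν1, fun S hS α hα0 hα => ?_⟩
  obtain ⟨C, hC, hC1⟩ := h S hS (fun l => pv (α l)) (fun i j hij => hα i j hij)
  refine ⟨C, hC, fun Y hY F hF => ?_⟩
  have hmk : ∀ x : K, (![x, 1] : Fin 2 → K) ≠ 0 := by
    intro x h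
    have := congrFun h 1
    simp at this
  set f : K → Projectivization K (Fin 2 → K) := fun x => Projectivization.mk K ![x, 1] (hmk x)
    with hf
  have hinj : Function.Injective f := by
    intro y y' h
    simp only [hf] at h
    rw [Projectivization.mk_eq_mk_iff'] at h
    obtain ⟨a, ha⟩ := h
    have h1 := congrFun ha 1
    have h0 := congrFun ha 0
    simp only [Pi.smul_apply, smul_eq_mul, Matrix.cons_val_one, Matrix.cons_val_zero,
      Matrix.cons_val_fin_one, mul_one] at h0 h1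
    rw [h1, one_mul] at h0
    exact h0.symm
  obtain ⟨hfin, hcard⟩ := hC1 (Real.exp Y) (Real.one_le_exp hY)
  have hsub : ((F.map ⟨f, hinj⟩ : Finset _) : Set (Projectivization K (Fin 2 → K))) ⊆
      BigQ S (fun l => pv (α l)) ε (Real.exp Y) := by
    intro P hP
    rw [Finset.mem_coe, Finset.mem_map] at hP
    obtain ⟨x, hx, rfl⟩ := hP
    obtain ⟨g1, g2, g3⟩ := hF x hx
    refine ⟨![x, 1], hmk x, rfl, ?_, ?_, ?_⟩
    · intro l
      show form (pv (α l)) ![x, 1] ≠ 0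
      have e1 : form (pv (α l)) ![x, 1] = -((aff x).1 * (α l).2 - (aff x).2 * (α l).1) := by
        show (α l).1 * 1 - (α l).2 * x = -(x * (α l).2 - 1 * (α l).1)
        ring
      rw [e1]
      exact neg_ne_zero.mpr (g1 l)
    · refine Real.exp_le_exp.mpr (le_trans ?_ g2)
      exact Pool.Agent.R365.SH.counting_le S α hα0 g1
    · rw [Real.log_exp, ← Pool.Agent.R365.QP.hr_aff]
      exact g3
  have h3 := Set.ncard_le_ncard hsub hfin
  rw [Set.ncard_coe_finset, Finset.card_map] at h3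
  have h4 : (F.card : ℝ) ≤ ((BigQ S (fun l => pv (α l)) ε (Real.exp Y)).ncard : ℝ) := by
    exact_mod_cast h3
  refine h4.trans (hcard.trans (le_of_eq ?_))
  rw [← Real.exp_mul]
  congr 2
  ring

end Pool.Agent.V5helper59.SO
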