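import Pool.Agent.R479.DB.Core
import Pool.Agent.W221.SelE3
import Pool.Agent.H691R3.SelGen

/-!
# First order bounds for the points whose counting function is small in comparison with the height
-/

set_option autoImplicit false

namespace Pool.Agent.V5helper59.SO

open NumberField IsDedekindDomain Finset Filter Topology Pool.Agent.H691R3

/-- a bound for the points with `N < (q - κ) h + c₀` -/
def Bd (K : Type) [Field K] [NumberField K] (q : ℕ) (κ e : ℝ) : Prop :=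
  ∀ T : Set (HeightOneSpectrum (𝓞 K)), T.Finite → ∀ α : Fin q → K × K, (∀ l, α l ≠ 0) →
    (∀ i j, i ≠ j → wg (α i) (α j) ≠ 0) → ∀ c₀ δ : ℝ, 0 < δ → ∃ C : ℝ, 0 ≤ C ∧
      ∀ X : ℝ, 0 ≤ X → ∀ E : Finset K,
        (∀ x ∈ E, Off α x ∧ NTc T α x < (q - κ) * hr (aff x) + c₀ ∧ hr (aff x) ≤ X) →
        (E.card : ℝ) ≤ C * Real.exp ((e + δ) * X)

open Pool.Agent.R479.DB in
theorem G_le {u : ℝ} (h : 1 / 2 ≤ u) (h' : u < 3) : G u ≤ 3 / 5 * (3 - u) := by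
  unfold G
  split_ifs <;> linarith

/-- the choice of the number of the points -/
theorem exists_j {q : ℕ} (hq : 3 ≤ q) {κ : ℝ} (h1 : (q : ℝ) ≤ (5 * q - 9) * κ)
    (h2 : 6 * κ < q) : ∃ j : ℕ, 2 ≤ j ∧ j ≤ q ∧ (j : ℝ) * κ / q ≤ 6 / 7 ∧
      (q : ℝ) ≤ (5 * j - 9) * κ := by
  have hqR : (3 : ℝ) ≤ q := by exact_mod_cast hq
  have hq0 : (0 : ℝ) < q := by linarith
  have hκ : 0 < κ := by
    by_contra hc
    rw [not_lt] at hc
    nlinarith
  rcases le_or_gt κ (6 / 7) with h | h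
  · refine ⟨q, by omega, le_rfl, ?_, h1⟩
    rw [mul_div_assoc, mul_div_cancel₀ _ hq0.ne']
    exact h
  · obtain ⟨t, ht⟩ : ∃ t, t = 6 * (q : ℝ) / (7 * κ) := ⟨_, rfl⟩
    have htκ : t * κ = 6 * q / 7 := by
      rw [ht]
      field_simp
    have ht0 : 0 < t := by rw [ht]; positivity
    have h3 := Nat.floor_le ht0.le
    have h4 := Nat.lt_floor_add_one t
    have h5 : (5 : ℝ) < t := by
      rw [ht, lt_div_iff₀ (by positivity)]
      linarith
    have h6 : t < q := by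
      rw [ht, div_lt_iff₀ (by positivity)]
      nlinarith
    have h7 : 5 ≤ ⌊t⌋₊ := Nat.le_floor (by exact_mod_cast h5.le)
    have h8 : ⌊t⌋₊ ≤ q := by
      have : (⌊t⌋₊ : ℝ) ≤ q := by linarith
      exact_mod_cast this
    have h9 : (5 : ℝ) ≤ ⌊t⌋₊ := by exact_mod_cast h7
    refine ⟨⌊t⌋₊, by omega, h8, ?_, ?_⟩
    · rw [div_le_iff₀ hq0]
      have := mul_le_mul_of_nonneg_right h3 hκ.le
      linarith
    · have h10 : 6 * (q : ℝ) / 7 ≤ (⌊t⌋₊ + 1) * κ := by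
        rw [← htκ]
        exact mul_le_mul_of_nonneg_right h4.le hκ.le
      nlinarith

theorem bd_exists (K : Type) [Field K] [NumberField K] {q : ℕ} (hq : 3 ≤ q) {κ : ℝ}
    (h1 : (q : ℝ) ≤ (5 * q - 9) * κ) (h2 : κ < q) :
    ∃ e : ℝ, 0 ≤ e ∧ e ≤ 9 / (5 * q) * (q - κ) ∧ Bd K q κ e := by
  classical
  have hqR : (3 : ℝ) ≤ q := by exact_mod_cast hq
  have hq0 : (0 : ℝ) < q := by linarith
  have hκ : 0 < κ := by
    by_contra hc
    rw [not_lt] at hc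
    nlinarith
  rcases le_or_gt (q : ℝ) (6 * κ) with h | h
  · set u : ℝ := 3 * κ / q with hu
    have hu3 : u < 3 := by
      rw [hu, div_lt_iff₀ hq0]
      linarith
    have hu1 : 1 / 2 ≤ u := by
      rw [hu, le_div_iff₀ hq0]
      linarith
    have hG := Pool.Agent.R479.DB.G_nonneg hu3
    refine ⟨Pool.Agent.R479.DB.G u, hG, ?_, ?_⟩
    · refine (G_le hu1 hu3).trans (le_of_eq ?_)
      rw [hu]
      field_simp
      ring
    · intro T hT α hα0 hα c₀ δ hδ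
      have hF := Pool.Agent.R365.AK.main3 K (3 - u) (by linarith) (by linarith)
      rw [Pool.Agent.R479.DB.G_eq] at hF
      obtain ⟨C, hC, hmain⟩ := Pool.Agent.R365.QP.count_q hq T hT α hα0 hα κ h2 hG hF c₀ δ hδ
      exact ⟨C, hC.le, fun X hX E hE => hmain X E hX hE⟩
  · obtain ⟨j, hj2, hjq, hj1, hj3⟩ := exists_j hq h1 h
    have hj0 : (2 : ℝ) ≤ j := by exact_mod_cast hj2
    have hκq : κ / q ≤ 1 := by rw [div_le_one hq0]; exact h2.le
    refine ⟨2 - j * κ / q, by linarith, ?_, ?_⟩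
    · have h3 : (q : ℝ) / q ≤ (5 * j - 9) * κ / q := div_le_div_of_nonneg_right hj3 hq0.le
      rw [div_self hq0.ne'] at h3
      have e1 : 9 / (5 * (q : ℝ)) * (q - κ) = 9 / 5 - 9 / 5 * (κ / q) := by
        field_simp
      have e2 : (5 * (j : ℝ) - 9) * κ / q = 5 * (j * κ / q) - 9 * (κ / q) := by ring
      rw [e1]
      rw [e2] at h3
      linarith
    · intro T hT α hα0 hα c₀ δ hδ
      have hs : Sel.{0} q κ (2 - j * κ / q) := by
        refine Pool.Agent.W221.Exc.sel_restrict (r := j) (by omega) hjq ?_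
        have h3 := sel_all.{0} hj2 (j * κ / q)
        rwa [max_eq_left (by linarith)] at h3
      obtain ⟨C, hC, hmain⟩ := count_all2 (by omega) T hT α hα0 hα κ (2 - j * κ / q) hκ.le
        (by linarith) hs (max c₀ 0) (le_max_right _ _) δ hδ
      refine ⟨C, hC, fun X hX E hE => hmain X hX E fun x hx => ?_⟩
      obtain ⟨g1, g2, g3⟩ := hE x hx
      exact ⟨g1, lt_of_lt_of_le g2 (by linarith [le_max_left c₀ 0]), g3⟩

variable {K : Type} [Field K] [NumberField K]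

/-- one slice -/
theorem slice {q : ℕ} (hq : 3 ≤ q) {lam : ℝ} (hl0 : 0 < lam)
    (h1 : (q : ℝ) ≤ (5 * q - 9) * (q - lam)) {η s : ℝ} (hη : 0 < η)
    (hs : (9 / (5 * q) + η) * (1 + η) ≤ s)
    (T : Set (HeightOneSpectrum (𝓞 K))) (hT : T.Finite) (α : Fin q → K × K)
    (hα0 : ∀ l, α l ≠ 0) (hα : ∀ i j, i ≠ j → wg (α i) (α j) ≠ 0) :
    ∃ C : ℝ, 0 ≤ C ∧ ∀ Y : ℝ, 0 ≤ Y → ∀ F : Finset K,
      (∀ x ∈ F, Off α x ∧ NTc T α x ≤ Y ∧ Y / lam ≤ hr (aff x) ∧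
        hr (aff x) ≤ Y / lam * (1 + η)) →
      (F.card : ℝ) ≤ C * Real.exp (s * Y) := by
  have hqR : (3 : ℝ) ≤ q := by exact_mod_cast hq
  obtain ⟨e, he0, he1, hB⟩ := bd_exists K hq h1 (by linarith : (q : ℝ) - lam < q)
  obtain ⟨C, hC, h⟩ := hB T hT α hα0 hα 1 (η * lam) (by positivity)
  refine ⟨C, hC, fun Y hY F hF => ?_⟩
  have h3 := h (Y / lam * (1 + η)) (by positivity) F fun x hx => by
    obtain ⟨g1, g2, g3, g4⟩ := hF x hx
    refine ⟨g1, ?_, g4⟩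
    rw [sub_sub_cancel]
    rw [div_le_iff₀ hl0] at g3
    linarith
  refine h3.trans (mul_le_mul_of_nonneg_left (Real.exp_le_exp.2 ?_) hC)
  rw [sub_sub_cancel] at he1
  have h4 : (e + η * lam) * (Y / lam * (1 + η)) ≤ (9 / (5 * q) * lam + η * lam) * (Y / lam * (1 + η)) :=
    mul_le_mul_of_nonneg_right (by linarith) (by positivity)
  refine h4.trans ?_
  have e1 : (9 / (5 * (q : ℝ)) * lam + η * lam) * (Y / lam * (1 + η)) =
      (9 / (5 * q) + η) * (1 + η) * Y := by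
    have : lam ≠ 0 := hl0.ne'
    field_simp
  rw [e1]
  exact mul_le_mul_of_nonneg_right hs hY

/-- the points of height up to a multiple of `Y` -/
theorem tail_mid {q : ℕ} (hq : 3 ≤ q) {κb : ℝ} (hκb : κb < q)
    (h1 : (q : ℝ) ≤ (5 * q - 9) * κb) {s : ℝ} (hs : 9 / (5 * q) < s)
    (T : Set (HeightOneSpectrum (𝓞 K))) (hT : T.Finite) (α : Fin q → K × K)
    (hα0 : ∀ l, α l ≠ 0) (hα : ∀ i j, i ≠ j → wg (α i) (α j) ≠ 0) (A : ℝ) :
    ∃ C : ℝ, 0 ≤ C ∧ ∀ Y : ℝ, 0 ≤ Y → ∀ F : Finset K,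
      (∀ x ∈ F, Off α x ∧ NTc T α x ≤ Y ∧ Y / (q - κb) ≤ hr (aff x) ∧ hr (aff x) ≤ A * Y) →
      (F.card : ℝ) ≤ C * Real.exp (s * Y) := by
  classical
  have hqR : (3 : ℝ) ≤ q := by exact_mod_cast hq
  have hκ0 : 0 < κb := by
    by_contra hc
    rw [not_lt] at hc
    nlinarith
  have ha : 0 < (q : ℝ) - κb := by linarith
  obtain ⟨η, hη0, hη⟩ : ∃ η : ℝ, 0 < η ∧ (9 / (5 * (q : ℝ)) + η) * (1 + η) ≤ s := by
    have hc : Tendsto (fun η : ℝ => (9 / (5 * (q : ℝ)) + η) * (1 + η)) (𝓝[>] 0)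
        (𝓝 ((9 / (5 * (q : ℝ)) + 0) * (1 + 0))) := by
      refine tendsto_nhdsWithin_of_tendsto_nhds ?_
      exact (tendsto_id.const_add _).mul (tendsto_id.const_add 1)
    rw [add_zero, add_zero, mul_one] at hc
    obtain ⟨η, g1, g2⟩ := ((hc.eventually (gt_mem_nhds hs)).and self_mem_nhdsWithin).exists
    exact ⟨η, g2, g1.le⟩
  have hη1 : (1 : ℝ) < 1 + η := by linarith
  -- the slices
  have hsl : ∀ n : ℕ, ∃ C : ℝ, 0 ≤ C ∧ ∀ Y : ℝ, 0 ≤ Y → ∀ F : Finset K,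
      (∀ x ∈ F, Off α x ∧ NTc T α x ≤ Y ∧ Y / (q - κb) * (1 + η) ^ n ≤ hr (aff x) ∧
        hr (aff x) ≤ Y / (q - κb) * (1 + η) ^ (n + 1)) →
      (F.card : ℝ) ≤ C * Real.exp (s * Y) := by
    intro n
    have hp : (1 : ℝ) ≤ (1 + η) ^ n := one_le_pow₀ hη1.le
    have hp0 : (0 : ℝ) < (1 + η) ^ n := by linarith
    have hle : (q - κb) / (1 + η) ^ n ≤ q - κb := div_le_self ha.le hp
    obtain ⟨C, hC, h⟩ := slice (lam := (q - κb) / (1 + η) ^ n) hq (by positivity)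
      (by nlinarith) hη0 hη T hT α hα0 hα
    refine ⟨C, hC, fun Y hY F hF => h Y hY F fun x hx => ?_⟩
    obtain ⟨g1, g2, g3, g4⟩ := hF x hx
    have e1 : Y / ((q - κb) / (1 + η) ^ n) = Y / (q - κb) * (1 + η) ^ n := by
      rw [div_div_eq_mul_div]
      ring
    rw [e1]
    refine ⟨g1, g2, g3, g4.trans (le_of_eq ?_)⟩
    rw [pow_succ]
    ring
  have hP : ∀ n : ℕ, ∃ C : ℝ, 0 ≤ C ∧ ∀ Y : ℝ, 0 ≤ Y → ∀ F : Finset K,
      (∀ x ∈ F, Off α x ∧ NTc T α x ≤ Y ∧ Y / (q - κb) ≤ hr (aff x) ∧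
        hr (aff x) ≤ Y / (q - κb) * (1 + η) ^ (n + 1)) →
      (F.card : ℝ) ≤ C * Real.exp (s * Y) := by
    intro n
    induction n with
    | zero =>
      obtain ⟨C, hC, h⟩ := hsl 0
      refine ⟨C, hC, fun Y hY F hF => h Y hY F fun x hx => ?_⟩
      obtain ⟨g1, g2, g3, g4⟩ := hF x hx
      refine ⟨g1, g2, ?_, g4⟩
      rw [pow_zero, mul_one]
      exact g3
    | succ n ih =>
      obtain ⟨C, hC, h⟩ := ih
      obtain ⟨C', hC', h'⟩ := hsl (n + 1)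
      refine ⟨C + C', by positivity, fun Y hY F hF => ?_⟩
      have hsplit := Finset.card_filter_add_card_filter_not (s := F)
        (fun x => hr (aff x) ≤ Y / (q - κb) * (1 + η) ^ (n + 1))
      have g1 := h Y hY (F.filter fun x => hr (aff x) ≤ Y / (q - κb) * (1 + η) ^ (n + 1))
        fun x hx => by
          obtain ⟨hx1, hx2⟩ := Finset.mem_filter.1 hx
          obtain ⟨k1, k2, k3, -⟩ := hF x hx1
          exact ⟨k1, k2, k3, hx2⟩
      have g2 := h' Y hY (F.filter fun x => ¬ hr (aff x) ≤ Y / (q - κb) * (1 + η) ^ (n + 1))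
        fun x hx => by
          obtain ⟨hx1, hx2⟩ := Finset.mem_filter.1 hx
          obtain ⟨k1, k2, -, k4⟩ := hF x hx1
          exact ⟨k1, k2, (not_le.1 hx2).le, k4⟩
      have e : (F.card : ℝ) = ((F.filter fun x => hr (aff x) ≤
          Y / (q - κb) * (1 + η) ^ (n + 1)).card : ℝ) +
          ((F.filter fun x => ¬ hr (aff x) ≤ Y / (q - κb) * (1 + η) ^ (n + 1)).card : ℝ) := by
        exact_mod_cast hsplit.symm
      rw [e, add_mul]
      exact add_le_add g1 g2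
  obtain ⟨n, hn⟩ := pow_unbounded_of_one_lt (A * (q - κb)) hη1
  obtain ⟨C, hC, h⟩ := hP n
  refine ⟨C, hC, fun Y hY F hF => h Y hY F fun x hx => ?_⟩
  obtain ⟨g1, g2, g3, g4⟩ := hF x hx
  refine ⟨g1, g2, g3, g4.trans ?_⟩
  have h3 : A ≤ (1 + η) ^ (n + 1) / (q - κb) := by
    rw [le_div_iff₀ ha]
    have : (1 + η) ^ n ≤ (1 + η) ^ (n + 1) := pow_le_pow_right₀ hη1.le (Nat.le_succ n)
    linarith
  refine (mul_le_mul_of_nonneg_right h3 hY).trans (le_of_eq ?_)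
  ring

end Pool.Agent.V5helper59.SO
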