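import Pool.Agent.V5helper59.SO.Up
import Pool.Agent.V5helper59.SO.Exp
import Pool.Agent.V5helper59.SO.Big

/-!
# The violators ordered by their counting function
-/

set_option autoImplicit false
set_option linter.unusedSectionVars false

namespace Pool.Agent.V5helper59.SO

open NumberField IsDedekindDomain Finset Filter Topology Module
open Pool.Agent.H691R3 Pool.Agent.W223.AK Pool.Agent.N906.KG
open Pool.Agent.N906.NT (Gs Gs_pos Gs_tendsto squeeze)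
open Pool.Agent.N170.KG (pr al_pr rep_eq_of rep_inf ht_rep of_rep off_of pt pt_rep pt_inj fin_pos
  lv_eq pts pts_finite exp_hh ratio)
open Pool.Agent.N340.QP (tr_eq ncl_bounds good_set lim2)
open Pool.Agent.N654.QP (ntc_eq)

variable {K : Type} [Field K] [NumberField K] {q : ℕ}

/-- the points `P` with `N ≤ L` and `N ≤ (q - κ) h + c`; `Q` is a further condition for the height -/
def WQ (T : Set (Pr K)) {q : ℕ} (α : Fin q → Fin 2 → K) (κ c : ℝ) (Q : ℝ → ℝ → Prop) (L : ℝ) :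
    Set (Projectivization K (Fin 2 → K)) :=
  {P | Off1 α P ∧ ∑ l, ncl T (α l) P ≤ L ∧ ∑ l, ncl T (α l) P ≤ ((q : ℝ) - κ) * hh P + c ∧
    Q (finrank ℚ K * L) (Height.logHeight P.rep)}

theorem wq_point {T : Set (Pr K)} {α : Fin q → Fin 2 → K} {κ c : ℝ} {Q : ℝ → ℝ → Prop} {L : ℝ}
    (hq : 1 ≤ q) (hα0 : ∀ i, α i ≠ 0)
    (hα : ∀ i j, i ≠ j → α i 0 * α j 1 - α i 1 * α j 0 ≠ 0) {S : Finset (Pr K)}
    (hG : Gd S (pr α)) (hTS : ∀ v ∈ T, v ∈ S) {P : Projectivization K (Fin 2 → K)}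
    (hP : P ∈ WQ T α κ c Q L) (h1 : P.rep 1 ≠ 0) :
    Of (pr α) (P.rep 0 / P.rep 1) ∧ Q (finrank ℚ K * L) (hr (aff (P.rep 0 / P.rep 1))) ∧
      ∃ A, IsP S (pr α) (P.rep 0 / P.rep 1) A ∧ tr A ≤ finrank ℚ K * L ∧
        tr A ≤ ((q : ℝ) - κ) * hr (aff (P.rep 0 / P.rep 1)) + finrank ℚ K * |c| := by
  have hd : (0 : ℝ) < finrank ℚ K := fin_pos
  have hA := al_pr hα0 hα
  obtain ⟨m1, m2, m3, m4⟩ := hP
  obtain ⟨C₁, -, hA3⟩ := (basq_all K q (pr α) hq hA).2 _ hG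
  have o1 := of_rep h1 m1
  obtain ⟨A, hPA⟩ := (hA3 _ o1).1
  have hcop := ((hA3 _ o1).2.1 A hPA).1
  have m5 : tr A ≤ finrank ℚ K * ∑ l, ncl T (α l) P := by
    rw [tr_eq hcop, mul_sum]
    exact sum_le_sum fun l _ => (ncl_bounds hα0 hTS h1 m1 hPA l).1
  refine ⟨o1, ?_, A, hPA, m5.trans (mul_le_mul_of_nonneg_left m2 hd.le), ?_⟩
  · rw [← ht_rep]
    exact m4
  · rw [← ht_rep]
    have m6 := mul_le_mul_of_nonneg_left m3 hd.le
    refine m5.trans (m6.trans ?_)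
    unfold hh
    have e1 : (finrank ℚ K : ℝ) * (((q : ℝ) - κ) * (Height.logHeight P.rep / finrank ℚ K) +
        c) = ((q : ℝ) - κ) * Height.logHeight P.rep + finrank ℚ K * c := by
      field_simp
    rw [e1]
    have := mul_le_mul_of_nonneg_left (le_abs_self c) hd.le
    linarith

/-- only finitely many points have bounded counting function -/
theorem fin_tr (hq : 3 ≤ q) {α : Fin q → K × K} (hA : Al α) {S : Finset (Pr K)} (hG : Gd S α)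
    (Λ : ℝ) : {x : K | Of α x ∧ ∃ P, IsP S α x P ∧ tr P ≤ Λ}.Finite := by
  classical
  have hqR : (3 : ℝ) ≤ q := by exact_mod_cast hq
  have hq2 : 0 < 1 - 2 / (q : ℝ) := by
    have : 2 / (q : ℝ) < 1 := by rw [div_lt_one (by linarith)]; linarith
    linarith
  obtain ⟨C, ν, hC, hν, h⟩ := Pool.Agent.R365.SH.all_upper hq (↑S : Set (Pr K)) S.finite_toSet α
    hA.1 hA.2 0 le_rfl hq2
  obtain ⟨C₁, -, hA3⟩ := (basq_all K q α (by omega) hA).2 _ hG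
  by_contra hinf
  obtain ⟨E, hEV, hEc⟩ := Set.Infinite.exists_subset_card_eq hinf
    (⌊C * (Real.exp (2 / q * max Λ 0 - 0 * (-max Λ 0)) +
      Real.exp ((2 / q - ν) * max Λ 0))⌋₊ + 1)
  have h1 := h (max Λ 0) (-max Λ 0) (le_max_right _ _) E fun x hx => by
    obtain ⟨g1, P, g2, g3⟩ := hEV hx
    have g4 : NTc (↑S : Set (Pr K)) α x ≤ max Λ 0 := by
      rw [ntc_eq g2 ((hA3 x g1).2.1 P g2).1]
      exact g3.trans (le_max_left _ _)
    refine ⟨fun l => Pool.Agent.N954.KG.of_wedge g1 l, g4, ?_⟩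
    have g5 := mul_nonneg (by linarith : (0 : ℝ) ≤ q) (hr_aff_nonneg x)
    linarith
  have h2 := Nat.lt_floor_add_one (C * (Real.exp (2 / q * max Λ 0 - 0 * (-max Λ 0)) +
      Real.exp ((2 / q - ν) * max Λ 0)))
  rw [hEc] at h1
  push_cast at h1
  linarith

open Classical in
theorem inf_card (F : Finset (Projectivization K (Fin 2 → K))) :
    F.card ≤ (F.filter fun P => P.rep 1 ≠ 0).card + 1 := by
  have h := Finset.card_filter_add_card_filter_not (s := F) (fun P => P.rep 1 ≠ 0)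
  have h' : (F.filter fun P => ¬ P.rep 1 ≠ 0).card ≤ 1 := by
    rw [Finset.card_le_one]
    intro P hP P' hP'
    exact rep_inf (not_not.1 (mem_filter.1 hP).2) (not_not.1 (mem_filter.1 hP').2)
  omega

theorem wq_finite (hq : 3 ≤ q) {T : Set (Pr K)} (hT : T.Finite) {α : Fin q → Fin 2 → K}
    (hα0 : ∀ i, α i ≠ 0) (hα : ∀ i j, i ≠ j → α i 0 * α j 1 - α i 1 * α j 0 ≠ 0) (κ c : ℝ)
    (Q : ℝ → ℝ → Prop) (L : ℝ) : (WQ T α κ c Q L).Finite := by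
  classical
  have hA := al_pr hα0 hα
  obtain ⟨S, hG, hTS⟩ := good_set (basq_all K) (by omega : 1 ≤ q) hT hA
  have h1 : ({P : Projectivization K (Fin 2 → K) | P.rep 1 = 0} : Set _).Finite :=
    Set.Subsingleton.finite fun P hP P' hP' => rep_inf hP hP'
  refine (h1.union ((fin_tr hq hA hG (finrank ℚ K * L)).image pt)).subset ?_
  intro P hP
  by_cases h : P.rep 1 = 0
  · exact Or.inl h
  · right
    obtain ⟨g1, -, A, g2, g3, -⟩ := wq_point (by omega) hα0 hα hG hTS hP h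
    refine ⟨P.rep 0 / P.rep 1, ⟨g1, A, g2, g3⟩, ?_⟩
    obtain ⟨k1, k2⟩ := pt_rep (P.rep 0 / P.rep 1)
    exact rep_eq_of k1 h k2

theorem upper (hq : 3 ≤ q) {T : Set (Pr K)} (hT : T.Finite) {α : Fin q → Fin 2 → K}
    (hα0 : ∀ i, α i ≠ 0) (hα : ∀ i j, i ≠ j → α i 0 * α j 1 - α i 1 * α j 0 ≠ 0)
    {κ κb s : ℝ} (c : ℝ) (hκ0 : 0 < κ) (hκb : κ < κb) (hκb1 : κb < 6 / 7)
    (hs : s < (2 - κ) / (q - κ)) (Q : ℝ → ℝ → Prop)
    (htail : ∀ S : Finset (Pr K), Gd S (pr α) → ∃ C : ℝ, 0 ≤ C ∧ ∀ Y : ℝ, 0 ≤ Y →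
      ∀ F : Finset K, (∀ x ∈ F, Of (pr α) x ∧ Q Y (hr (aff x)) ∧ Y / (q - κb) ≤ hr (aff x) ∧
        ∃ P, IsP S (pr α) x P ∧ tr P ≤ Y) → (F.card : ℝ) ≤ C * Real.exp (s * Y))
    {ε : ℝ} (hε : 0 < ε) :
    ∃ Y₀ : ℝ, 1 < Y₀ ∧ ∀ L : ℝ, Y₀ ≤ (finrank ℚ K : ℝ) * L →
      ((WQ T α κ c Q L).ncard : ℝ) ≤ Real.exp ((2 - κ) / (q - κ) * (finrank ℚ K * L) +
        (1 + ε) * √(8 * q * κ / (q - κ) * ((finrank ℚ K * L) /
          Real.log (finrank ℚ K * L)))) + 1 := by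
  classical
  have hd : (0 : ℝ) < finrank ℚ K := fin_pos
  have hA := al_pr hα0 hα
  obtain ⟨S, hG, hTS⟩ := good_set (basq_all K) (by omega : 1 ≤ q) hT hA
  obtain ⟨Y₀, hY₀, hup⟩ := up_main hq hκ0 hκb hκb1 hs Q hA hG
    (by positivity : 0 ≤ finrank ℚ K * |c|) (htail S hG) hε
  refine ⟨Y₀, hY₀, fun L hL => ?_⟩
  have hfin := wq_finite hq hT hα0 hα κ c Q L
  obtain ⟨F, hF⟩ : ∃ F : Finset (Projectivization K (Fin 2 → K)), F = hfin.toFinset := ⟨_, rfl⟩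
  have hFm : ∀ P, P ∈ F → P ∈ WQ T α κ c Q L := fun P => by
    rw [hF, Set.Finite.mem_toFinset]
    exact id
  have hcard : (WQ T α κ c Q L).ncard = F.card := by
    rw [hF, Set.ncard_eq_toFinset_card _ hfin]
  rw [hcard]
  have hc1 : (((F.filter fun P => P.rep 1 ≠ 0).card : ℕ) : ℝ) ≤
      Real.exp ((2 - κ) / (q - κ) * (finrank ℚ K * L) +
        (1 + ε) * √(8 * q * κ / (q - κ) * ((finrank ℚ K * L) /
          Real.log (finrank ℚ K * L)))) := by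
    rw [← card_image_of_injOn (s := F.filter fun P => P.rep 1 ≠ 0)
      (f := fun P => P.rep 0 / P.rep 1)]
    · refine hup _ hL _ ?_
      intro x hx
      obtain ⟨P, hP, rfl⟩ := mem_image.1 hx
      obtain ⟨g0, g1⟩ := mem_filter.1 hP
      exact wq_point (by omega) hα0 hα hG hTS (hFm P g0) g1
    · intro P hP P' hP' e
      exact rep_eq_of (mem_filter.1 (mem_coe.1 hP)).2 (mem_filter.1 (mem_coe.1 hP')).2 e
  have hs : (F.card : ℝ) ≤ (((F.filter fun P => P.rep 1 ≠ 0).card : ℕ) : ℝ) + 1 := by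
    exact_mod_cast inf_card F
  linarith

theorem lower (hq : 3 ≤ q) {T : Set (Pr K)} (hT : T.Finite) {α : Fin q → Fin 2 → K}
    (hα0 : ∀ i, α i ≠ 0) (hα : ∀ i j, i ≠ j → α i 0 * α j 1 - α i 1 * α j 0 ≠ 0)
    {κ : ℝ} (c : ℝ) (hκ0 : 0 < κ) (hκ1 : κ < 1) (Q : ℝ → ℝ → Prop)
    (hQ : ∀ Y h : ℝ, 0 ≤ Y → h ≤ Y / (q - κ) → Q Y h) {ε : ℝ} (hε : 0 < ε) (hε1 : ε < 1) :
    ∃ Y₀ : ℝ, ∀ L : ℝ, Y₀ ≤ (finrank ℚ K : ℝ) * L →
      Real.exp ((2 - κ) / (q - κ) * (finrank ℚ K * L) +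
        (1 - ε) * √(8 * q * κ / (q - κ) * ((finrank ℚ K * L) /
          Real.log (finrank ℚ K * L)))) ≤ ((WQ T α κ c Q L).ncard : ℝ) := by
  classical
  have hd : (0 : ℝ) < finrank ℚ K := fin_pos
  have hqR : (3 : ℝ) ≤ q := by exact_mod_cast hq
  obtain ⟨a, ha⟩ : ∃ a : ℝ, a = (q : ℝ) - κ := ⟨_, rfl⟩
  have ha1 : 1 ≤ a := by rw [ha]; linarith
  have ha0 : 0 < a := by linarith
  obtain ⟨X₀, hX₀, h⟩ := Pool.Agent.N340.QP.lower (basq_all K) (loj_all K) (by omega : 1 ≤ q) hT c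
    hα0 hα hκ0 hκ1 (by linarith : 0 < ε / 2) (by linarith)
  obtain ⟨b, hb⟩ : ∃ b : ℝ, b = finrank ℚ K * |c| := ⟨_, rfl⟩
  have hb0 : 0 ≤ b := by rw [hb]; positivity
  have hev : ∀ᶠ Y : ℝ in atTop, 0 ≤ Y ∧ X₀ ≤ (Y - b) / a ∧
      (1 - ε) * √(8 * q * κ / a * (Y / Real.log Y)) ≤
      (1 - ε / 2) * √(8 * q * κ * ((Y - b) / a) / Real.log ((Y - b) / a)) -
        (2 - κ) * b / a := by
    filter_upwards [eventually_ge_atTop (0 : ℝ), eventually_ge_atTop (a * X₀ + b),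
      main_ge (b' := (2 - κ) * b / a) ha1 hb0 (by positivity : 0 < 8 * (q : ℝ) * κ) hε hε1]
      with Y e1 e2 e3
    refine ⟨e1, ?_, e3⟩
    rw [le_div_iff₀ ha0]
    linarith
  obtain ⟨Y₀, hY₀⟩ := eventually_atTop.1 hev
  refine ⟨Y₀, fun L hL => ?_⟩
  obtain ⟨Y, hY⟩ : ∃ Y : ℝ, Y = finrank ℚ K * L := ⟨_, rfl⟩
  rw [← hY] at hL ⊢
  obtain ⟨v0, v1, v2⟩ := hY₀ Y hL
  obtain ⟨L', hL'⟩ : ∃ L' : ℝ, L' = (L - |c|) / a := ⟨_, rfl⟩
  have hdL' : (finrank ℚ K : ℝ) * L' = (Y - b) / a := by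
    rw [hL', hY, hb]
    ring
  have h1 := h L' (by rw [hdL']; exact v1)
  rw [hdL'] at h1
  have hsub : QV T α κ c (Real.exp L') ⊆ WQ T α κ c Q L := by
    rintro P ⟨g1, g2, g3⟩
    rw [Real.exp_le_exp] at g2
    have hL0 : 0 ≤ L := by
      by_contra hcon
      rw [not_le] at hcon
      have : (finrank ℚ K : ℝ) * L < 0 := mul_neg_of_pos_of_neg hd hcon
      linarith
    have g4 : ((q : ℝ) - κ) * hh P + c ≤ L := by
      have g5 : a * hh P ≤ a * L' := mul_le_mul_of_nonneg_left g2 ha0.le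
      have g6 : a * L' = L - |c| := by rw [hL', mul_div_cancel₀ _ ha0.ne']
      rw [← ha]
      linarith [le_abs_self c]
    refine ⟨g1, g3.trans g4, g3, hQ _ _ (by positivity) ?_⟩
    have g7 : Height.logHeight P.rep = finrank ℚ K * hh P := by
      unfold hh
      rw [mul_div_cancel₀ _ hd.ne']
    rw [g7, ← ha, mul_div_assoc]
    refine mul_le_mul_of_nonneg_left (g2.trans ?_) hd.le
    rw [hL']
    refine div_le_div_of_nonneg_right ?_ ha0.le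
    linarith [abs_nonneg c]
  have h2 := Set.ncard_le_ncard hsub (wq_finite hq hT hα0 hα κ c Q L)
  have h3 : ((QV T α κ c (Real.exp L')).ncard : ℝ) ≤ ((WQ T α κ c Q L).ncard : ℝ) := by
    exact_mod_cast h2
  refine le_trans (le_trans (Real.exp_le_exp.2 ?_) h1) h3
  rw [← ha]
  have e1 : (2 - κ) * ((Y - b) / a) = (2 - κ) / a * Y - (2 - κ) * b / a := by ring
  rw [e1]
  linarith

theorem core (hq : 3 ≤ q) {T : Set (Pr K)} (hT : T.Finite) {α : Fin q → Fin 2 → K}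
    (hα0 : ∀ i, α i ≠ 0) (hα : ∀ i j, i ≠ j → α i 0 * α j 1 - α i 1 * α j 0 ≠ 0)
    {κ κb s : ℝ} (c : ℝ) (hκ0 : 0 < κ) (hκb : κ < κb) (hκb1 : κb < 6 / 7)
    (hs : s < (2 - κ) / (q - κ)) (Q : ℝ → ℝ → Prop)
    (hQ : ∀ Y h : ℝ, 0 ≤ Y → h ≤ Y / (q - κ) → Q Y h)
    (htail : ∀ S : Finset (Pr K), Gd S (pr α) → ∃ C : ℝ, 0 ≤ C ∧ ∀ Y : ℝ, 0 ≤ Y →
      ∀ F : Finset K, (∀ x ∈ F, Of (pr α) x ∧ Q Y (hr (aff x)) ∧ Y / (q - κb) ≤ hr (aff x) ∧
        ∃ P, IsP S (pr α) x P ∧ tr P ≤ Y) → (F.card : ℝ) ≤ C * Real.exp (s * Y)) :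
    Tendsto (fun L : ℝ => (Real.log ((WQ T α κ c Q L).ncard : ℝ) -
      (2 - κ) / (q - κ) * finrank ℚ K * L) / Gs (1 / 2) L) atTop
      (𝓝 (√(8 * q * κ / (q - κ)) * √(finrank ℚ K : ℝ))) := by
  have hd : (0 : ℝ) < finrank ℚ K := fin_pos
  have hqR : (3 : ℝ) ≤ q := by exact_mod_cast hq
  have ha0 : 0 < (q : ℝ) - κ := by linarith
  have hk : 0 ≤ 8 * (q : ℝ) * κ / (q - κ) := by positivity
  refine lim2 (e := (2 - κ) / (q - κ) * finrank ℚ K) (d := finrank ℚ K)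
    (c := √(8 * q * κ / (q - κ))) hd (Real.sqrt_nonneg _)
    (mul_pos (div_pos (by linarith) ha0) hd)
    (fun L => ((WQ T α κ c Q L).ncard : ℝ)) ?_ ?_
  · intro ε hε
    obtain ⟨Y₀, -, h⟩ := upper hq hT hα0 hα c hκ0 hκb hκb1 hs Q htail hε
    refine ⟨Y₀, fun L hL => (h L hL).trans (le_of_eq ?_)⟩
    rw [Real.sqrt_mul hk, mul_assoc ((2 - κ) / (q - κ))]
  · intro ε hε hε1
    obtain ⟨Y₀, h⟩ := lower hq hT hα0 hα c hκ0 (by linarith) Q hQ hε hε1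
    refine ⟨Y₀, fun L hL => (le_of_eq ?_).trans (h L hL)⟩
    rw [Real.sqrt_mul hk, mul_assoc ((2 - κ) / (q - κ))]

/-- all heights -/
theorem all_heights (K : Type) [Field K] [NumberField K] {q : ℕ} (hq : 3 ≤ q) :
    ∃ κ₀ : ℝ, 0 < κ₀ ∧ ∀ (T : Set (Pr K)) (α : Fin q → Fin 2 → K), T.Finite →
      (∀ i, α i ≠ 0) → (∀ i j, i ≠ j → α i 0 * α j 1 - α i 1 * α j 0 ≠ 0) →
      ∀ κ c : ℝ, 0 < κ → κ < κ₀ →
      Tendsto (fun L : ℝ => (Real.log ((WQ T α κ c (fun _ _ => True) L).ncard : ℝ) -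
        (2 - κ) / (q - κ) * finrank ℚ K * L) / Gs (1 / 2) L) atTop
        (𝓝 (√(8 * q * κ / (q - κ)) * √(finrank ℚ K : ℝ))) := by
  classical
  have hqR : (3 : ℝ) ≤ q := by exact_mod_cast hq
  have hq0 : (0 : ℝ) < q := by linarith
  have hqb : (0 : ℝ) < q - 3 / 4 := by linarith
  have hε₁ : 0 < 1 / ((q : ℝ) - 3 / 4) - 1 / q := by
    have := one_div_lt_one_div_of_lt hqb (by linarith : (q : ℝ) - 3 / 4 < q)
    linarith
  obtain ⟨ν, hν0, -, hbig⟩ := big_tail K q hq _ hε₁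
  refine ⟨min (1 / 2) (q * ν), lt_min (by norm_num) (by positivity),
    fun T α hT hα0 hα κ c hκ0 hκ1 => ?_⟩
  have hκ2 : κ < 1 / 2 := lt_of_lt_of_le hκ1 (min_le_left _ _)
  have hκ3 : κ < q * ν := lt_of_lt_of_le hκ1 (min_le_right _ _)
  have hA := al_pr hα0 hα
  refine core hq hT hα0 hα (κb := 3 / 4) (s := 2 / q - ν) c hκ0 (by linarith) (by norm_num) ?_ _
    (fun _ _ _ _ => trivial) ?_
  · have h1 : (2 - κ) / q ≤ (2 - κ) / (q - κ) :=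
      div_le_div_of_nonneg_left (by linarith) (by linarith) (by linarith)
    have h2 : (2 - κ) / (q : ℝ) = 2 / q - κ / q := by ring
    have h3 : κ / q < ν := by
      rw [div_lt_iff₀ hq0]
      linarith
    linarith
  · intro S hG
    obtain ⟨C, hC, h⟩ := hbig (↑S : Set (Pr K)) S.finite_toSet (pr α) hA.1 hA.2
    obtain ⟨C₁, -, hA3⟩ := (basq_all K q (pr α) (by omega) hA).2 _ hG
    refine ⟨C, hC.le, fun Y hY F hF => h Y hY F fun x hx => ?_⟩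
    obtain ⟨g1, -, g2, P, g3, g4⟩ := hF x hx
    refine ⟨fun l => Pool.Agent.N954.KG.of_wedge g1 l, ?_, ?_⟩
    · rw [ntc_eq g3 ((hA3 x g1).2.1 P g3).1]
      exact g4
    · refine le_trans (le_of_eq ?_) g2
      ring

/-- heights up to a power of `X` -/
theorem mid_heights (K : Type) [Field K] [NumberField K] {q : ℕ} (hq : 3 ≤ q)
    (T : Set (Pr K)) (α : Fin q → Fin 2 → K) (hT : T.Finite)
    (hα0 : ∀ i, α i ≠ 0) (hα : ∀ i j, i ≠ j → α i 0 * α j 1 - α i 1 * α j 0 ≠ 0)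
    (κ c A : ℝ) (hκ0 : 0 < κ) (hκ1 : (5 * q - 9) * κ < q) (hA1 : 1 / (q - κ) ≤ A) :
      Tendsto (fun L : ℝ => (Real.log ((WQ T α κ c (fun Y h => h ≤ A * Y) L).ncard : ℝ) -
        (2 - κ) / (q - κ) * finrank ℚ K * L) / Gs (1 / 2) L) atTop
        (𝓝 (√(8 * q * κ / (q - κ)) * √(finrank ℚ K : ℝ))) := by
  classical
  have hqR : (3 : ℝ) ≤ q := by exact_mod_cast hq
  have hq0 : (0 : ℝ) < q := by linarith
  have hκ2 : κ < 1 / 2 := by
    by_contra hcon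
    rw [not_lt] at hcon
    nlinarith
  have ha0 : 0 < (q : ℝ) - κ := by linarith
  have hA := al_pr hα0 hα
  have hs : 9 / (5 * (q : ℝ)) < (2 - κ) / (q - κ) := by
    rw [div_lt_div_iff₀ (by positivity) ha0]
    nlinarith
  obtain ⟨s, hs1, hs2⟩ := exists_between hs
  refine core hq hT hα0 hα (κb := 1 / 2) (s := s) c hκ0 hκ2 (by norm_num) hs2 _ ?_ ?_
  · intro Y h hY hh
    refine hh.trans ?_
    have := mul_le_mul_of_nonneg_right hA1 hY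
    refine le_trans (le_of_eq ?_) this
    ring
  · intro S hG
    obtain ⟨C, hC, h⟩ := tail_mid (K := K) hq (κb := 1 / 2) (by linarith) (by linarith) hs1
      (↑S : Set (Pr K)) S.finite_toSet (pr α) hA.1 hA.2 A
    obtain ⟨C₁, -, hA3⟩ := (basq_all K q (pr α) (by omega) hA).2 _ hG
    refine ⟨C, hC, fun Y hY F hF => h Y hY F fun x hx => ?_⟩
    obtain ⟨g1, g0, g2, P, g3, g4⟩ := hF x hx
    refine ⟨fun l => Pool.Agent.N954.KG.of_wedge g1 l, ?_, g2, g0⟩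
    rw [ntc_eq g3 ((hA3 x g1).2.1 P g3).1]
    exact g4

end Pool.Agent.V5helper59.SO
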