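import Mathlib

/-!
# Elementary asymptotics
-/

set_option autoImplicit false

namespace Pool.Agent.V5helper59.SO

open Filter Topology Finset

theorem ev_div {a : ℝ} (ha : 0 < a) (X : ℝ) : ∀ᶠ Y : ℝ in atTop, X ≤ Y / a :=
  (tendsto_id.atTop_div_const ha).eventually_ge_atTop X

theorem ev_log {a : ℝ} (ha : 0 < a) (X : ℝ) : ∀ᶠ Y : ℝ in atTop, X ≤ Real.log (Y / a) :=
  (Real.tendsto_log_atTop.comp (tendsto_id.atTop_div_const ha)).eventually_ge_atTop X

theorem sqrt_small {a : ℝ} (ha : 0 < a) {c k : ℝ} (hc : 0 < c) (hk : 0 ≤ k) :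
    ∀ᶠ Y : ℝ in atTop, c * √(k / Real.log (Y / a)) ≤ 1 / 2 := by
  filter_upwards [ev_log ha (4 * c ^ 2 * k + 1)] with Y hY
  have h0 : 0 < Real.log (Y / a) := by
    have : 0 ≤ 4 * c ^ 2 * k := by positivity
    linarith
  have h1 : √(k / Real.log (Y / a)) ≤ 1 / (2 * c) := by
    rw [Real.sqrt_le_left (by positivity), div_le_iff₀ h0]
    have h2 : (1 / (2 * c)) ^ 2 * Real.log (Y / a) = Real.log (Y / a) / (4 * c ^ 2) := by
      field_simp
      ring
    rw [h2, le_div_iff₀ (by positivity)]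
    nlinarith
  calc c * √(k / Real.log (Y / a)) ≤ c * (1 / (2 * c)) := mul_le_mul_of_nonneg_left h1 hc.le
    _ = 1 / 2 := by field_simp

theorem mul_sqrt' {c x : ℝ} (hc : 0 ≤ c) : c * √x = √(c ^ 2 * x) := by
  rw [Real.sqrt_mul (sq_nonneg c), Real.sqrt_sq hc]

theorem sqrt_add_le' {a b : ℝ} (ha : 0 ≤ a) (hb : 0 ≤ b) : √(a + b) ≤ √a + √b := by
  rw [Real.sqrt_le_left (add_nonneg (Real.sqrt_nonneg _) (Real.sqrt_nonneg _))]
  have h1 := Real.sq_sqrt ha
  have h2 := Real.sq_sqrt hb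
  have h3 := mul_nonneg (Real.sqrt_nonneg a) (Real.sqrt_nonneg b)
  nlinarith

/-- the main term at the height `Y / a` -/
theorem main_le {a k ε : ℝ} (ha : 0 < a) (hk : 0 ≤ k) (hε : 0 < ε) :
    ∀ᶠ Y : ℝ in atTop, (1 + ε) * √(k * (Y / a) / Real.log (Y / a)) ≤
      (1 + 2 * ε) * √(k / a * (Y / Real.log Y)) := by
  have hc : (1 + ε) ^ 2 < (1 + 2 * ε) ^ 2 := by nlinarith
  obtain ⟨D, hD⟩ : ∃ D, D = (1 + 2 * ε) ^ 2 - (1 + ε) ^ 2 := ⟨_, rfl⟩
  have hD0 : 0 < D := by rw [hD]; linarith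
  filter_upwards [eventually_gt_atTop (1 : ℝ), ev_log ha 1,
    Real.tendsto_log_atTop.eventually_ge_atTop ((1 + 2 * ε) ^ 2 * Real.log a / D)]
    with Y h1 h2 h3
  have hl : 0 < Real.log Y := Real.log_pos h1
  have hl' : 0 < Real.log (Y / a) := by linarith
  have e1 : Real.log (Y / a) = Real.log Y - Real.log a := Real.log_div (by linarith) ha.ne'
  rw [mul_sqrt' (by linarith), mul_sqrt' (by linarith)]
  refine Real.sqrt_le_sqrt ?_
  have hA : 0 ≤ k * (Y / a) := mul_nonneg hk (div_nonneg (by linarith) ha.le)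
  have e2 : (1 + ε) ^ 2 * (k * (Y / a) / Real.log (Y / a)) =
      k * (Y / a) * ((1 + ε) ^ 2 / Real.log (Y / a)) := by ring
  have e3 : (1 + 2 * ε) ^ 2 * (k / a * (Y / Real.log Y)) =
      k * (Y / a) * ((1 + 2 * ε) ^ 2 / Real.log Y) := by ring
  rw [e2, e3]
  refine mul_le_mul_of_nonneg_left ?_ hA
  rw [div_le_div_iff₀ hl' hl, e1]
  rw [div_le_iff₀ hD0] at h3
  rw [hD] at h3
  nlinarith

theorem Z_atTop {k : ℝ} (hk : 0 < k) :
    Tendsto (fun Y : ℝ => √(k * (Y / Real.log Y))) atTop atTop := by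
  have h1 : Tendsto (fun Y : ℝ => Real.exp Y / Y) atTop atTop := by
    have := Real.tendsto_exp_div_pow_atTop 1
    simpa using this
  have h2 : Tendsto (fun Y : ℝ => Y / Real.log Y) atTop atTop := by
    have h3 := h1.comp Real.tendsto_log_atTop
    refine h3.congr' ?_
    filter_upwards [eventually_gt_atTop (0 : ℝ)] with Y hY
    simp only [Function.comp_apply]
    rw [Real.exp_log hY]
  exact Real.tendsto_sqrt_atTop.comp (h2.const_mul_atTop hk)

/-- the main term at the height `(Y - b) / a`, lower bound -/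
theorem main_ge {a b b' k ε : ℝ} (ha : 1 ≤ a) (hb : 0 ≤ b) (hk : 0 < k) (hε : 0 < ε) (hε1 : ε < 1) :
    ∀ᶠ Y : ℝ in atTop, (1 - ε) * √(k / a * (Y / Real.log Y)) ≤
      (1 - ε / 2) * √(k * ((Y - b) / a) / Real.log ((Y - b) / a)) - b' := by
  have ha0 : 0 < a := by linarith
  filter_upwards [eventually_gt_atTop (1 : ℝ), eventually_ge_atTop (4 * b / ε),
    (Z_atTop (k := k / a) (by positivity)).eventually_ge_atTop (4 * b' / ε),
    eventually_gt_atTop (a + b)] with Y h1 h2 h3 h4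
  have hl : 0 < Real.log Y := Real.log_pos h1
  have hY : 0 < Y := by linarith
  have hm1 : 1 < (Y - b) / a := by
    rw [lt_div_iff₀ ha0]
    linarith
  have hl' : 0 < Real.log ((Y - b) / a) := Real.log_pos hm1
  have hmY : (Y - b) / a ≤ Y := by
    rw [div_le_iff₀ ha0]
    nlinarith
  have hll : Real.log ((Y - b) / a) ≤ Real.log Y := Real.log_le_log (by linarith) hmY
  have h5 : (1 - ε / 4) * Y ≤ Y - b := by
    rw [div_le_iff₀ hε] at h2
    nlinarith
  have h6 : (1 - 3 * ε / 4) * √(k / a * (Y / Real.log Y)) ≤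
      (1 - ε / 2) * √(k * ((Y - b) / a) / Real.log ((Y - b) / a)) := by
    rw [mul_sqrt' (by linarith), mul_sqrt' (by linarith)]
    refine Real.sqrt_le_sqrt ?_
    have e1 : (1 - 3 * ε / 4) ^ 2 * (k / a * (Y / Real.log Y)) =
        k / a * ((1 - 3 * ε / 4) ^ 2 * Y / Real.log Y) := by ring
    have e2 : (1 - ε / 2) ^ 2 * (k * ((Y - b) / a) / Real.log ((Y - b) / a)) =
        k / a * ((1 - ε / 2) ^ 2 * (Y - b) / Real.log ((Y - b) / a)) := by
      field_simp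
    rw [e1, e2]
    refine mul_le_mul_of_nonneg_left ?_ (by positivity)
    have h7 : (1 - 3 * ε / 4) ^ 2 * Y ≤ (1 - ε / 2) ^ 2 * (Y - b) := by
      have h8 : (1 - 3 * ε / 4) ^ 2 ≤ (1 - ε / 2) ^ 2 * (1 - ε / 4) := by
        have : 0 < ε * (1 - ε) := by nlinarith
        nlinarith [mul_pos hε hε, mul_pos (mul_pos hε hε) hε]
      calc (1 - 3 * ε / 4) ^ 2 * Y ≤ (1 - ε / 2) ^ 2 * (1 - ε / 4) * Y :=
            mul_le_mul_of_nonneg_right h8 hY.le
        _ = (1 - ε / 2) ^ 2 * ((1 - ε / 4) * Y) := by ring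
        _ ≤ _ := mul_le_mul_of_nonneg_left h5 (sq_nonneg _)
    have hn : 0 ≤ (1 - ε / 2) ^ 2 * (Y - b) := by
      have : 0 ≤ Y - b := by linarith
      positivity
    calc (1 - 3 * ε / 4) ^ 2 * Y / Real.log Y ≤ (1 - ε / 2) ^ 2 * (Y - b) / Real.log Y :=
          div_le_div_of_nonneg_right h7 hl.le
      _ ≤ _ := div_le_div_of_nonneg_left hn hl' hll
  have h7 : b' ≤ ε / 4 * √(k / a * (Y / Real.log Y)) := by
    rw [div_le_iff₀ hε] at h3
    linarith
  linarith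

/-- the sum of the terms `exp (- j / 2)` -/
theorem sum_exp_half (J : Finset ℕ) : ∑ j ∈ J, Real.exp (-((j : ℝ) / 2)) ≤ 3 := by
  have h1 : Real.exp (-(1 / 2 : ℝ)) ≤ 2 / 3 := by
    rw [Real.exp_neg, inv_le_comm₀ (Real.exp_pos _) (by norm_num)]
    have := Real.add_one_le_exp (1 / 2 : ℝ)
    linarith
  have h2 : ∀ j : ℕ, Real.exp (-((j : ℝ) / 2)) ≤ (2 / 3 : ℝ) ^ j := by
    intro j
    have e : Real.exp (-((j : ℝ) / 2)) = Real.exp (-(1 / 2 : ℝ)) ^ j := by
      rw [← Real.exp_nat_mul]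
      congr 1
      ring
    rw [e]
    exact pow_le_pow_left₀ (Real.exp_pos _).le h1 j
  refine (Finset.sum_le_sum fun j _ => h2 j).trans ?_
  have h3 := Summable.sum_le_tsum J (fun j _ => pow_nonneg (by norm_num : (0 : ℝ) ≤ 2 / 3) j)
    (summable_geometric_of_lt_one (by norm_num : (0 : ℝ) ≤ 2 / 3) (by norm_num))
  rw [tsum_geometric_of_lt_one (by norm_num) (by norm_num)] at h3
  refine h3.trans ?_
  norm_num

end Pool.Agent.V5helper59.SO
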