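import Pool.Agent.N906.QP.All
import Pool.Agent.V5helper59.SO.Asy

/-!
# The upper bound for the number of the violators with small counting function
-/

set_option autoImplicit false

namespace Pool.Agent.V5helper59.SO

open NumberField IsDedekindDomain Finset Filter Topology Module
open Pool.Agent.H691R3 Pool.Agent.W223.AK Pool.Agent.N906.KG

variable {K : Type} [Field K] [NumberField K]

theorem upq_all (K : Type) [Field K] [NumberField K] (q : ℕ) (hq : 2 ≤ q) : S_UPQ K q (6 / 7) :=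
  Pool.Agent.N901.QP.upq K q (6 / 7) (by omega) (by norm_num) (upu_all K q hq) (cellq_all K)
    (basq_all K)

theorem up_main {q : ℕ} (hq : 3 ≤ q) {κ κb s : ℝ} (hκ0 : 0 < κ) (hκb : κ < κb)
    (hκb1 : κb < 6 / 7) (hs : s < (2 - κ) / (q - κ)) (Q : ℝ → ℝ → Prop) {α : Fin q → K × K}
    {S : Finset (Pr K)} (hA : Al α) (hG : Gd S α) {C₀ : ℝ} (hC₀ : 0 ≤ C₀)
    (htail : ∃ C : ℝ, 0 ≤ C ∧ ∀ Y : ℝ, 0 ≤ Y → ∀ F : Finset K,
      (∀ x ∈ F, Of α x ∧ Q Y (hr (aff x)) ∧ Y / (q - κb) ≤ hr (aff x) ∧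
        ∃ P, IsP S α x P ∧ tr P ≤ Y) → (F.card : ℝ) ≤ C * Real.exp (s * Y))
    {ε : ℝ} (hε : 0 < ε) :
    ∃ Y₀ : ℝ, 1 < Y₀ ∧ ∀ Y : ℝ, Y₀ ≤ Y → ∀ F : Finset K,
      (∀ x ∈ F, Of α x ∧ Q Y (hr (aff x)) ∧
        ∃ P, IsP S α x P ∧ tr P ≤ Y ∧ tr P ≤ ((q : ℝ) - κ) * hr (aff x) + C₀) →
      (F.card : ℝ) ≤ Real.exp ((2 - κ) / (q - κ) * Y +
        (1 + ε) * √(8 * q * κ / (q - κ) * (Y / Real.log Y))) := by
  classical
  have hqR : (3 : ℝ) ≤ q := by exact_mod_cast hq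
  obtain ⟨a, ha⟩ : ∃ a : ℝ, a = (q : ℝ) - κ := ⟨_, rfl⟩
  have ha1 : 1 ≤ a := by rw [ha]; linarith
  have ha0 : 0 < a := by linarith
  obtain ⟨ε', hε'⟩ : ∃ ε' : ℝ, ε' = ε / 4 := ⟨_, rfl⟩
  have hε'0 : 0 < ε' := by rw [hε']; linarith
  obtain ⟨δ, hδ⟩ : ∃ δ : ℝ, δ = min (κ / 2) (6 / 7 - κb) := ⟨_, rfl⟩
  have hδ0 : 0 < δ := by rw [hδ]; exact lt_min (by linarith) (by linarith)
  have hδ1 : δ ≤ κ / 2 := by rw [hδ]; exact min_le_left _ _
  have hδ2 : δ ≤ 6 / 7 - κb := by rw [hδ]; exact min_le_right _ _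
  obtain ⟨X₁, hX₁, h1⟩ := upq_all K q (by omega) α S κ ε' C₀ hA hG hκ0 (by linarith) hε'0 hC₀
  obtain ⟨X₂, hX₂, h2⟩ := upu_all K q (by omega) α S δ ε' hA hG hδ0 hε'0
  obtain ⟨C, hC, h3⟩ := htail
  obtain ⟨t, ht⟩ : ∃ t : ℝ, t = (2 - κ) / (q - κ) := ⟨_, rfl⟩
  obtain ⟨k, hk⟩ : ∃ k : ℝ, k = 8 * q * κ := ⟨_, rfl⟩
  have hk0 : 0 < k := by rw [hk]; positivity
  rw [← ht] at hs ⊢
  have ht' : (2 - κ) = t * a := by
    rw [ht, ← ha, div_mul_cancel₀ _ ha0.ne']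
  have hev : ∀ᶠ Y : ℝ in atTop, 1 < Y ∧ (X₁ ≤ Y / a ∧ X₂ ≤ Y / a) ∧ 1 ≤ Real.log (Y / a) ∧
      2 * δ / κ ≤ Y / a ∧ (1 + ε') * √(8 * (q : ℝ) ^ 2 / Real.log (Y / a)) ≤ 1 / 2 ∧
      (1 + ε') * √(k * (Y / a) / Real.log (Y / a)) ≤
        (1 + 2 * ε') * √(k / a * (Y / Real.log Y)) ∧
      Real.log (2 * (1 + 3 * Real.exp q)) / (2 * ε') ≤ √(k / a * (Y / Real.log Y)) ∧
      2 * C ≤ Real.exp ((t - s) * Y) := by
    filter_upwards [eventually_gt_atTop (1 : ℝ), ev_div ha0 X₁, ev_div ha0 X₂, ev_log ha0 1,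
      ev_div ha0 (2 * δ / κ), sqrt_small ha0 (c := 1 + ε') (k := 8 * (q : ℝ) ^ 2) (by linarith)
        (by positivity), main_le ha0 hk0.le hε'0,
      (Z_atTop (k := k / a) (by positivity)).eventually_ge_atTop
        (Real.log (2 * (1 + 3 * Real.exp q)) / (2 * ε')),
      (Real.tendsto_exp_atTop.comp (tendsto_id.const_mul_atTop
        (sub_pos.2 hs))).eventually_ge_atTop (2 * C)] with Y e1 e2 e3 e4 e5 e6 e7 e8 e9
    exact ⟨e1, ⟨e2, e3⟩, e4, e5, e6, e7, e8, e9⟩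
  obtain ⟨Y₀, hY₀⟩ := eventually_atTop.1 hev
  refine ⟨max Y₀ 2, lt_of_lt_of_le one_lt_two (le_max_right _ _), fun Y hY F hF => ?_⟩
  obtain ⟨v1, ⟨v2, v3⟩, v4, v5, v6, v7, v8, v9⟩ := hY₀ Y ((le_max_left _ _).trans hY)
  have hYpos : 0 < Y := by linarith
  obtain ⟨m₀, hm₀⟩ : ∃ m₀ : ℝ, m₀ = Y / a := ⟨_, rfl⟩
  obtain ⟨Z, hZ⟩ : ∃ Z : ℝ, Z = √(k / a * (Y / Real.log Y)) := ⟨_, rfl⟩
  have hZ0 : 0 ≤ Z := by rw [hZ]; exact Real.sqrt_nonneg _
  rw [← hm₀] at v2 v3 v4 v5 v6 v7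
  rw [← hZ] at v7 v8
  have hm0 : 0 < m₀ := by rw [hm₀]; positivity
  have hYa : Y = a * m₀ := by rw [hm₀, mul_div_cancel₀ _ ha0.ne']
  obtain ⟨B, hB⟩ : ∃ B : ℝ, B = (2 - κ) * m₀ + (1 + ε') * √(8 * q * κ * m₀ / Real.log m₀) :=
    ⟨_, rfl⟩
  have hBle : B ≤ t * Y + (1 + 2 * ε') * Z := by
    rw [hB, ht', ← hk, hYa]
    have e1 : t * a * m₀ = t * (a * m₀) := by ring
    rw [e1]
    linarith
  -- the far part
  have hfar : ((F.filter fun x => Y / (q - κb) ≤ hr (aff x)).card : ℝ) ≤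
      C * Real.exp (s * Y) := by
    refine h3 Y hYpos.le _ fun x hx => ?_
    obtain ⟨g1, g2⟩ := mem_filter.1 hx
    obtain ⟨k1, k2, P, k3, k4, -⟩ := hF x g1
    exact ⟨k1, k2, g2, P, k3, k4⟩
  obtain ⟨F', hF'⟩ : ∃ F' : Finset K, F' = F.filter fun x => ¬ Y / (q - κb) ≤ hr (aff x) :=
    ⟨_, rfl⟩
  have hF'm : ∀ x ∈ F', x ∈ F ∧ hr (aff x) < Y / (q - κb) := fun x hx => by
    rw [hF', mem_filter, not_le] at hx
    exact hx
  -- the part near the bottom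
  have hbot : ((F'.filter fun x => hr (aff x) ≤ m₀).card : ℝ) ≤ Real.exp B := by
    rw [hB]
    refine h1 m₀ _ v2 fun x hx => ?_
    obtain ⟨g1, g2⟩ := mem_filter.1 hx
    obtain ⟨k1, k2, P, k3, k4, k5⟩ := hF x (hF'm x g1).1
    exact ⟨k1, g2, P, k3, k5⟩
  -- the annuli
  obtain ⟨F'', hF''⟩ : ∃ F'' : Finset K, F'' = F'.filter fun x => ¬ hr (aff x) ≤ m₀ := ⟨_, rfl⟩
  have hF''m : ∀ x ∈ F'', x ∈ F ∧ hr (aff x) < Y / (q - κb) ∧ m₀ < hr (aff x) := fun x hx => by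
    rw [hF'', mem_filter, not_le] at hx
    exact ⟨(hF'm x hx.1).1, (hF'm x hx.1).2, hx.2⟩
  have hkb0 : 0 < (q : ℝ) - κb := by linarith
  have hann : ∀ j : ℕ, ((F''.filter fun x => ⌈hr (aff x) - m₀⌉₊ = j).card : ℝ) ≤
      Real.exp (B + q) * Real.exp (-((j : ℝ) / 2)) := by
    intro j
    rcases (F''.filter fun x => ⌈hr (aff x) - m₀⌉₊ = j).eq_empty_or_nonempty with he | ⟨x₀, hx₀⟩
    · rw [he, card_empty, Nat.cast_zero]
      positivity
    have hj : ∀ x ∈ F''.filter fun x => ⌈hr (aff x) - m₀⌉₊ = j, x ∈ F ∧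
        hr (aff x) < Y / (q - κb) ∧ m₀ + j - 1 < hr (aff x) ∧ hr (aff x) ≤ m₀ + j := by
      intro x hx
      obtain ⟨g1, g2⟩ := mem_filter.1 hx
      obtain ⟨k1, k2, k3⟩ := hF''m x g1
      have g3 := Nat.le_ceil (hr (aff x) - m₀)
      have g4 := Nat.ceil_lt_add_one (show 0 ≤ hr (aff x) - m₀ by linarith)
      rw [g2] at g3 g4
      exact ⟨k1, k2, by linarith, by linarith⟩
    have hj1 : 1 ≤ j := by
      obtain ⟨g1, g2⟩ := mem_filter.1 hx₀
      have := (hF''m x₀ g1).2.2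
      rw [← g2]
      exact Nat.one_le_iff_ne_zero.2 (Nat.ceil_pos.2 (by linarith)).ne'
    have hjR : (1 : ℝ) ≤ j := by exact_mod_cast hj1
    obtain ⟨m, hm⟩ : ∃ m : ℝ, m = m₀ + j := ⟨_, rfl⟩
    obtain ⟨G, hGd⟩ : ∃ G : ℝ, G = q * (m - 1) - Y := ⟨_, rfl⟩
    have hG1 : G = κ * m₀ + q * (j - 1) := by
      rw [hGd, hm, hYa, ha]
      ring
    have hm1 : m₀ ≤ m := by rw [hm]; linarith
    have hGlow : δ * m ≤ G := by
      rw [hG1, hm]
      rw [div_le_iff₀ hκ0] at v5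
      have h5 : δ * m₀ ≤ κ / 2 * m₀ := mul_le_mul_of_nonneg_right hδ1 hm0.le
      have h6 : 0 ≤ (q - δ) * (j - 1) := mul_nonneg (by linarith) (by linarith)
      nlinarith
    have hGup : G ≤ (6 / 7 - δ) * m := by
      obtain ⟨-, g2, g3, -⟩ := hj x₀ hx₀
      have h5 : m - 1 < Y / (q - κb) := by rw [hm]; linarith
      rw [lt_div_iff₀ hkb0] at h5
      have h6 : κb * (m - 1) ≤ (6 / 7 - δ) * m := by
        have h7 : κb * m ≤ (6 / 7 - δ) * m := mul_le_mul_of_nonneg_right (by linarith) (by linarith)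
        nlinarith
      rw [hGd]
      nlinarith
    have h5 := h2 m G (F''.filter fun x => ⌈hr (aff x) - m₀⌉₊ = j) (v3.trans hm1) hGlow hGup
      fun x hx => by
        obtain ⟨g1, g2, g3, g4⟩ := hj x hx
        obtain ⟨k1, k2, P, k3, k4, k5⟩ := hF x g1
        refine ⟨k1, by rw [hm]; exact g3, by rw [hm]; exact g4, P, k3, ?_⟩
        have h7 : (q : ℝ) * (m - 1) ≤ q * hr (aff x) :=
          mul_le_mul_of_nonneg_left (by rw [hm]; linarith) (by linarith)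
        rw [hGd]
        linarith
    refine h5.trans ?_
    rw [← Real.exp_add]
    refine Real.exp_le_exp.2 ?_
    have hl0 : 0 < Real.log m₀ := by linarith
    have hl1 : Real.log m₀ ≤ Real.log m := Real.log_le_log hm0 hm1
    have h6 : √(8 * q * G / Real.log m) ≤ √(8 * q * κ * m₀ / Real.log m₀) +
        √(8 * (q : ℝ) ^ 2 / Real.log m₀) * j := by
      have e1 : 8 * q * G / Real.log m ≤ 8 * q * κ * m₀ / Real.log m₀ +
          8 * (q : ℝ) ^ 2 / Real.log m₀ * j := by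
        have e2 : 8 * q * κ * m₀ / Real.log m₀ + 8 * (q : ℝ) ^ 2 / Real.log m₀ * j =
            8 * q * (κ * m₀ + q * j) / Real.log m₀ := by
          field_simp
        rw [e2]
        have e3 : 0 ≤ G := le_trans (mul_nonneg hδ0.le (by linarith)) hGlow
        calc 8 * q * G / Real.log m ≤ 8 * q * G / Real.log m₀ :=
              div_le_div_of_nonneg_left (by positivity) hl0 hl1
          _ ≤ _ := by
              refine div_le_div_of_nonneg_right ?_ hl0.le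
              refine mul_le_mul_of_nonneg_left ?_ (by positivity)
              rw [hG1]
              linarith
      refine (Real.sqrt_le_sqrt e1).trans ?_
      refine (sqrt_add_le' (by positivity) (by positivity)).trans ?_
      refine add_le_add le_rfl ?_
      rw [Real.sqrt_mul (by positivity)]
      refine mul_le_mul_of_nonneg_left ?_ (Real.sqrt_nonneg _)
      rw [Real.sqrt_le_left (by linarith)]
      nlinarith
    have h7 : (1 + ε') * √(8 * q * G / Real.log m) ≤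
        (1 + ε') * √(8 * q * κ * m₀ / Real.log m₀) + 1 / 2 * j := by
      have h8 := mul_le_mul_of_nonneg_left h6 (by linarith : 0 ≤ 1 + ε')
      have h9 := mul_le_mul_of_nonneg_right v6 (by linarith : (0 : ℝ) ≤ j)
      nlinarith
    have h8 : 2 * m - G = (2 - κ) * m₀ + 2 * j - q * (j - 1) := by
      rw [hG1, hm]
      ring
    have h9 : 3 * (j : ℝ) ≤ q * j := mul_le_mul_of_nonneg_right hqR (by linarith)
    rw [h8, hB]
    linarith
  have hannsum : (F''.card : ℝ) ≤ 3 * Real.exp (B + q) := by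
    have e1 := card_eq_sum_card_image (fun x => ⌈hr (aff x) - m₀⌉₊) F''
    rw [e1]
    push_cast
    refine (sum_le_sum fun j _ => hann j).trans ?_
    rw [← mul_sum, mul_comm]
    exact mul_le_mul_of_nonneg_right (sum_exp_half _) (Real.exp_pos _).le
  have hc1 : (F.card : ℝ) = ((F.filter fun x => Y / (q - κb) ≤ hr (aff x)).card : ℝ) +
      (F'.card : ℝ) := by
    rw [hF']
    exact_mod_cast (card_filter_add_card_filter_not (s := F)
      (fun x => Y / (q - κb) ≤ hr (aff x))).symm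
  have hc2 : (F'.card : ℝ) = ((F'.filter fun x => hr (aff x) ≤ m₀).card : ℝ) +
      (F''.card : ℝ) := by
    rw [hF'']
    exact_mod_cast (card_filter_add_card_filter_not (s := F')
      (fun x => hr (aff x) ≤ m₀)).symm
  have htot : (F.card : ℝ) ≤ C * Real.exp (s * Y) + (1 + 3 * Real.exp q) * Real.exp B := by
    rw [hc1, hc2]
    have e1 : Real.exp (B + q) = Real.exp q * Real.exp B := by rw [← Real.exp_add, add_comm]
    rw [e1] at hannsum
    linarith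
  have hp1 : C * Real.exp (s * Y) ≤ 1 / 2 * Real.exp (t * Y + (1 + ε) * Z) := by
    have e1 : Real.exp (t * Y) = Real.exp ((t - s) * Y) * Real.exp (s * Y) := by
      rw [← Real.exp_add]
      congr 1
      ring
    have e2 : Real.exp (t * Y) ≤ Real.exp (t * Y + (1 + ε) * Z) := by
      refine Real.exp_le_exp.2 ?_
      have : 0 ≤ (1 + ε) * Z := mul_nonneg (by linarith) hZ0
      linarith
    have e3 := mul_le_mul_of_nonneg_right v9 (Real.exp_pos (s * Y)).le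
    rw [← e1] at e3
    linarith
  have hp2 : (1 + 3 * Real.exp q) * Real.exp B ≤ 1 / 2 * Real.exp (t * Y + (1 + ε) * Z) := by
    have hpos : 0 < 2 * (1 + 3 * Real.exp (q : ℝ)) := by positivity
    have e1 : 2 * (1 + 3 * Real.exp (q : ℝ)) ≤ Real.exp (2 * ε' * Z) := by
      rw [← Real.log_le_iff_le_exp hpos]
      rw [div_le_iff₀ (by positivity)] at v8
      linarith
    have e2 : Real.exp (2 * ε' * Z) * Real.exp B ≤ Real.exp (t * Y + (1 + ε) * Z) := by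
      rw [← Real.exp_add]
      refine Real.exp_le_exp.2 ?_
      rw [hε'] at hBle ⊢
      linarith
    have e3 := mul_le_mul_of_nonneg_right e1 (Real.exp_pos B).le
    linarith
  have hfinal : (F.card : ℝ) ≤ Real.exp (t * Y + (1 + ε) * Z) := by linarith
  rw [hZ, hk, ha] at hfinal
  exact hfinal

end Pool.Agent.V5helper59.SO
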